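import Pool.Agent.Helper40.LC.Elliptic

/-!
# MP_a27c81_ag: log canonical varieties of general type, without boundary, decide Q1

The conclusion of Q1 for the varieties `X` of elliptic type (empty boundary, `K_X` big and mobile,
factorial, Gorenstein, smooth outside a smooth subvariety of codimension two along which `X` is a
product with the cone over a plane cubic) of dimension at most `n + 2` gives it for all log
canonical pairs of dimension at most `n`.
-/

set_option autoImplicit false

namespace Pool.Agent.Results.MP_a27c81_ag.NoBoundary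

open Pool.Agent.Helper80.MMP Pool.Agent.Helper40.LC

theorem result (G : Geometry) (D : EllipticData G) (hT : Textbook G) (hM : MarkFacts G)
    (hF : EllipticFacts G D) (hP : EllipticPublished G) :
    (∀ n : ℕ,
      (∀ X : G.Var, 6 ≤ G.dim X → G.dim X ≤ n + 2 → EllipticType D X → G.Q1 X 0) →
      ∀ (X : G.Var) (Δ : G.Bd X), G.dim X ≤ n → G.Lc X Δ → G.Q1 X Δ) ∧
    ((∀ (X : G.Var) (Δ : G.Bd X), G.Lc X Δ → G.Q1 X Δ) ↔
      ∀ X : G.Var, EllipticType D X → G.Q1 X 0) :=
  ⟨fun n h => elliptic_main hT hM hF hP n h,
    fun h X hX => h X 0 (hF.lc hX),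
    fun h X Δ hlc => elliptic_main hT hM hF hP (G.dim X) (fun Y _ _ hY => h Y hY) X Δ le_rfl hlc⟩

end Pool.Agent.Results.MP_a27c81_ag.NoBoundary
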