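import Pool.Agent.Helper80.MMP.Fields

/-!
# MP_a27c81_ag: the complex problem and point pairs over the rational numbers

`K e` is the geometry of varieties over an algebraically closed subfield of `ℂ` of transcendence
degree `e`.  The conclusion of Q1 for all point pairs over `ℚ` of dimension at most `n + e + 1`
gives it for all complex log canonical pairs of dimension at most `n` that are defined over a
field of transcendence degree at most `e`; and the conclusion of Q1 for all complex log canonical
pairs is equivalent to the conclusion for all point pairs over `ℚ`.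
-/

set_option autoImplicit false

namespace Pool.Agent.Results.MP_a27c81_ag.OverRationals

open Pool.Agent.Helper80.MMP

theorem result (G : Geometry) (F : FieldData G) (hT : Textbook (F.K 0))
    (hM : MarkFacts (F.K 0)) (hF : FieldFacts G F) :
    (∀ n e : ℕ,
      (∀ (Y : (F.K 0).Var) (Δ : (F.K 0).Bd Y), (F.K 0).dim Y ≤ n + e + 1 →
        PointPair F.D Y Δ → F.OverQ Y Δ → (F.K 0).Q1 Y Δ) →
      ∀ (X : G.Var) (Δ : G.Bd X), G.dim X ≤ n → F.Def X Δ e → G.Lc X Δ → G.Q1 X Δ) ∧
    ((∀ (X : G.Var) (Δ : G.Bd X), G.Lc X Δ → G.Q1 X Δ) ↔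
      ∀ (Y : (F.K 0).Var) (Δ : (F.K 0).Bd Y), PointPair F.D Y Δ → F.OverQ Y Δ →
        (F.K 0).Q1 Y Δ) :=
  fields_main hT hM hF

end Pool.Agent.Results.MP_a27c81_ag.OverRationals
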