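import Pool.Agent.Helper80.MMP.Universal

/-!
# Log canonical pairs and one-divisor extractions of projective space

If the conclusion of Q1 holds for the pairs `(Y, S)`, where `Y → ℙ^(2k+1)` has one exceptional
prime divisor, `S` is ONE prime divisor, the strict transform of a hypersurface (for
`4 ≤ k ≤ n` and unbounded degrees), and `K + S` is big, then Q1 holds for all log canonical pairs of dimension at
most `n`.
-/

set_option autoImplicit false

namespace Pool.Agent.Results.MP_a27c81_ag.PicardTwoUniversal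

open Pool.Agent.Helper80.MMP

theorem result (G : Geometry) (hT : Textbook G) (hM : MarkFacts G)
    (hE : ExtractionFacts G) (hX : ProjectiveFacts G) (hP : Published G) (n : ℕ)
    (hU : ∀ k : ℕ, 4 ≤ k → k ≤ n → ∀ m : ℕ, ∃ d, m ≤ d ∧
      ∀ (Y : G.Var) (Δ : G.Bd Y), G.PrimePair k d Y Δ → G.Q1 Y Δ) :
    ∀ (X : G.Var) (Δ : G.Bd X), G.dim X ≤ n → G.Lc X Δ → G.Q1 X Δ := by
  intro X Δ hdim hlc
  by_cases hps : G.KB Δ ∈ G.Pseff X
  · refine hP.reduction n ?_ X Δ hdim hlc hps
    intro V hsm hn hK
    by_cases h3 : G.dim V ≤ 3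
    · exact hP.threefolds hsm h3 hK
    · push Not at h3
      exact weakZariski hT hM hE hX hP (by omega) hsm rfl hK (hU _ (by omega) hn)
  · exact hP.mori X Δ hlc hps

end Pool.Agent.Results.MP_a27c81_ag.PicardTwoUniversal
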