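import Pool.Agent.Helper80.MMP.Rational

/-!
# Log canonical pairs of dimension `n` and isolated rational points in dimension `n + 1`

For every `n`, Q1 holds for all log canonical pairs of dimension at most `n` if and only if it
holds for all rational point pairs `(Y, S + B)` of dimension at most `n + 1`: `Y` is a smooth
rational variety, `S` and `B` are disjoint smooth prime divisors, `K + S + B` is big, and `B` is
nef and contracts exactly `S`, to a point, over which the program of `(Y, S + B)` starts.
-/

set_option autoImplicit false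

namespace Pool.Agent.Results.MP_a27c81_ag.RationalLogSmooth

open Pool.Agent.Helper80.MMP

theorem result (G : Geometry) (D : RationalData G) (hT : Textbook G) (hM : MarkFacts G)
    (hR : RationalFacts G D) (hP : RationalPublished G) (n : ℕ) :
    (∀ (X : G.Var) (Δ : G.Bd X), G.dim X ≤ n → G.Lc X Δ → G.Q1 X Δ) ↔
      ∀ (Y : G.Var) (Δ : G.Bd Y), G.dim Y ≤ n + 1 → RationalPair D Y Δ → G.Q1 Y Δ := by
  constructor
  · intro h Y Δ hdim hY
    rcases Nat.eq_zero_or_pos (G.dim Y) with h0 | h0
    · exact h Y Δ (by omega) (hR.lc hY)
    · exact hP.lift n h Y Δ hdim (hR.uniruled h0 hY.2.1) (hR.lc hY)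
  · intro h X Δ hdim hlc
    by_cases hps : G.KB Δ ∈ G.Pseff X
    · refine hP.reduction n ?_ X Δ hdim hlc hps
      intro V hsm hn hK
      by_cases h3 : G.dim V ≤ 3
      · exact hP.threefolds hsm h3 hK
      · exact weakZariski_of_rational hT hM hR hP hsm (by omega) hK
          fun Y Δ hY hYD => h Y Δ (by omega) hYD
    · exact hP.mori X Δ hlc hps

end Pool.Agent.Results.MP_a27c81_ag.RationalLogSmooth
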